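import Mathlib
import Pool.Agent.TH957.PB.Alt
import Pool.Agent.Y928.PN.Pairs
import Pool.Agent.L0h78.ND.Two

/-!
# The digits of `ζ(3)/π³` and `8 G - π⁵/(18 ζ(3)) ± (2/3) π²` in different bases

Let `x 0 = ζ(3)/π³` and let `x 1`, `x 2` be the numbers `8 G - π⁵/(18 ζ(3)) ± (2/3) π²`, where `G` is
Catalan's constant. Let `κ > 1` and let `A ≥ 0` be an integer. There are constants `c > 0`, `B` such that
for all `k ≥ 0` and all `Λ` with `δ = c Λ ^ (1 / κ ^ (2 k + 1)) ≥ B` at least two of the three numbers are not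
simple. Here `x` is simple if in some base `b ≥ 2`, for some `L ≥ Λ / log b` and some
`m ≤ δ / log b - 1`, the first `L` digits of `x` can be cut into `k + 1` pieces such that the piece that
begins after the `u`-th digit satisfies a linear recurrence of order at most `m + A u`.

The base, the number of digits, the cuts and the orders may be different for the different numbers. If
`ζ(3)/π³` is rational then its digits satisfy one recurrence and it is simple (`k = 0`) for all large `Λ`; so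
then `x 1` and `x 2` are not simple, for all `k` and all large `Λ`.

Method: a piece of small order gives a rational approximation whose quality depends on the place
where the piece begins; two numbers have at most `2 k` cuts, so there is a window `(T, E T ^ κ)` of
scales without a cut, which gives approximations to both numbers with an error below
`exp (-C T ^ κ)` by rational numbers of height `exp (O (T))`; and this contradicts the measures for
common denominators (starting files).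
-/

set_option autoImplicit false

namespace Pool.Agent.Results.MP_e47f08_nt.DifferentBases

open Finset

/-- `ζ(3)` -/
noncomputable def zeta3 : ℝ := ∑' j : ℕ, 1 / ((j : ℝ) + 1) ^ 3

/-- Catalan's constant -/
noncomputable def G : ℝ := ∑' j : ℕ, (-1 : ℝ) ^ j / (2 * (j : ℝ) + 1) ^ 2

/-- the numbers `ζ(3)/π³`, `8 G - π⁵/(18 ζ(3)) + (2/3) π²`, `8 G - π⁵/(18 ζ(3)) - (2/3) π²` -/
noncomputable def x : Fin 3 → ℝ :=
  ![zeta3 / Real.pi ^ 3, 8 * G - Real.pi ^ 5 / (18 * zeta3) + 2 / 3 * Real.pi ^ 2,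
    8 * G - Real.pi ^ 5 / (18 * zeta3) - 2 / 3 * Real.pi ^ 2]

/-- the `i`-th digit of `x` after the point in base `b` -/
noncomputable def digit (b : ℕ) (x : ℝ) (i : ℕ) : ℤ := ⌊x * (b : ℝ) ^ i⌋ % (b : ℤ)

/-- The terms `s_(u+1), …, s_v` satisfy a linear recurrence
`s_(i+m) = c_0 s_i + … + c_(m-1) s_(i+m-1)` (for `u < i ≤ v - m`) of order `m` with rational
coefficients. -/
def Piece (s : ℕ → ℤ) (m u v : ℕ) : Prop :=
  ∃ c : ℕ → ℚ, ∀ i : ℕ, u < i → i + m ≤ v → (s (i + m) : ℚ) = ∑ j ∈ range m, c j * (s (i + j) : ℚ)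

/-- The terms `s_1, …, s_L` can be cut into `k + 1` (possibly empty) pieces; the piece that begins
after the term `s_u` satisfies a linear recurrence of order at most `m + A u`. -/
def Cut (s : ℕ → ℤ) (A k m L : ℕ) : Prop :=
  ∃ u : ℕ → ℕ, Monotone u ∧ u 0 = 0 ∧ u (k + 1) = L ∧
    ∀ i ≤ k, ∃ m' ≤ m + A * u i, Piece s m' (u i) (u (i + 1))

/-- In some base `b ≥ 2`, for some `L` with `L log b ≥ Λ` and some `m` with `(m + 1) log b ≤ δ`, the
first `L` digits of `x` can be cut into `k + 1` pieces; the piece that begins after the `u`-th digit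
satisfies a linear recurrence of order at most `m + A u`. -/
def Simple (A k : ℕ) (Λ δ x : ℝ) : Prop :=
  ∃ b L m : ℕ, 2 ≤ b ∧ Λ ≤ L * Real.log b ∧ ((m : ℝ) + 1) * Real.log b ≤ δ ∧
    Cut (digit b x) A k m L

/-- the measure for two of the three numbers -/
theorem meas (i j : Fin 3) (hij : i ≠ j) : ∃ (c : ℝ) (M : ℕ), 0 < c ∧
    ∀ (a b : ℤ) (n : ℕ), 0 < n → c / (n : ℝ) ^ M ≤ max |x i - a / n| |x j - b / n| := by
  have key : ∀ ε : ℝ, (ε = 1 ∨ ε = -1) → ∃ (c : ℝ) (M : ℕ), 0 < c ∧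
      ∀ (a b : ℤ) (n : ℕ), 0 < n → c / (n : ℝ) ^ M ≤ max |zeta3 / Real.pi ^ 3 - a / n|
        |8 * G - Real.pi ^ 5 / (18 * zeta3) + ε * (2 / 3 * Real.pi ^ 2) - b / n| := by
    intro ε hε
    obtain ⟨c, hc, h⟩ := Pool.Agent.TH957.PB.alt ε hε
    refine ⟨c, 4000, hc, fun a b n hn => ?_⟩
    have h1 := h b a n n (by exact_mod_cast hn) (by exact_mod_cast hn)
    have hn0 : (0 : ℝ) < n := by exact_mod_cast hn
    have e : c * (((n : ℤ) : ℝ) * ((n : ℤ) : ℝ)) ^ (-(2000 : ℝ)) = c / (n : ℝ) ^ 4000 := by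
      rw [Int.cast_natCast, Real.rpow_neg (by positivity), show (2000 : ℝ) = ((2000 : ℕ) : ℝ) by
        norm_num, Real.rpow_natCast, ← pow_two, ← pow_mul, div_eq_mul_inv]
    rw [e] at h1
    simp only [Int.cast_natCast] at h1
    exact h1
  have e1 : x 1 = 8 * G - Real.pi ^ 5 / (18 * zeta3) + 1 * (2 / 3 * Real.pi ^ 2) := by
    show 8 * G - Real.pi ^ 5 / (18 * zeta3) + 2 / 3 * Real.pi ^ 2 = _
    ring
  have e2 : x 2 = 8 * G - Real.pi ^ 5 / (18 * zeta3) + -1 * (2 / 3 * Real.pi ^ 2) := by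
    show 8 * G - Real.pi ^ 5 / (18 * zeta3) - 2 / 3 * Real.pi ^ 2 = _
    ring
  have e0 : x 0 = zeta3 / Real.pi ^ 3 := rfl
  have k1 := key 1 (Or.inl rfl)
  have k2 := key (-1) (Or.inr rfl)
  rw [← e0, ← e1] at k1
  rw [← e0, ← e2] at k2
  have k3 : ∃ (c : ℝ) (M : ℕ), 0 < c ∧
      ∀ (a b : ℤ) (n : ℕ), 0 < n → c / (n : ℝ) ^ M ≤ max |x 1 - a / n| |x 2 - b / n| := by
    obtain ⟨κ, c, hκ, hc, h⟩ := Pool.Agent.Y928.PN.pi_pair
    obtain ⟨M, hM⟩ := exists_nat_ge κ
    refine ⟨c, M + 1, hc, fun a b n hn => ?_⟩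
    have hn1 : (1 : ℝ) ≤ n := by exact_mod_cast hn
    have hn0 : (0 : ℝ) < n := by linarith
    have h1 := h (x 1) (x 2) (by rw [e1, e2]; ring) n hn a b
    have h2 : (n : ℝ) ^ κ ≤ (n : ℝ) ^ M := by
      rw [← Real.rpow_natCast]
      exact Real.rpow_le_rpow_of_exponent_le hn1 hM
    have h3 : ∀ (y : ℝ) (a : ℤ), |(n : ℝ) * y - a| = n * |y - a / n| := by
      intro y a
      rw [← abs_of_pos hn0, ← abs_mul, abs_of_pos hn0]
      congr 1
      field_simp
    rw [h3, h3, ← mul_max_of_nonneg _ _ hn0.le] at h1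
    rw [div_le_iff₀ (by positivity)]
    have h4 : 0 ≤ max |x 1 - a / n| |x 2 - b / n| := (abs_nonneg _).trans (le_max_left _ _)
    calc c ≤ (n : ℝ) ^ κ * (n * max |x 1 - a / n| |x 2 - b / n|) := h1
      _ ≤ (n : ℝ) ^ M * (n * max |x 1 - a / n| |x 2 - b / n|) :=
          mul_le_mul_of_nonneg_right h2 (by positivity)
      _ = _ := by rw [pow_succ]; ring
  have swap : ∀ i j : Fin 3, (∃ (c : ℝ) (M : ℕ), 0 < c ∧
      ∀ (a b : ℤ) (n : ℕ), 0 < n → c / (n : ℝ) ^ M ≤ max |x i - a / n| |x j - b / n|) →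
      ∃ (c : ℝ) (M : ℕ), 0 < c ∧
      ∀ (a b : ℤ) (n : ℕ), 0 < n → c / (n : ℝ) ^ M ≤ max |x j - a / n| |x i - b / n| := by
    rintro i j ⟨c, M, hc, h⟩
    exact ⟨c, M, hc, fun a b n hn => by rw [max_comm]; exact h b a n hn⟩
  fin_cases i <;> fin_cases j
  · exact absurd rfl hij
  · exact k1
  · exact k2
  · exact swap _ _ k1
  · exact absurd rfl hij
  · exact k3
  · exact swap _ _ k2
  · exact swap _ _ k3
  · exact absurd rfl hij

theorem result (κ : ℝ) (hκ : 1 < κ) (A : ℕ) :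
    ∃ c B : ℝ, 0 < c ∧ ∀ (k : ℕ) (Λ δ : ℝ), 0 ≤ Λ → δ = c * Λ ^ (1 / κ ^ (2 * k + 1)) → B ≤ δ →
      ∃ i j : Fin 3, i ≠ j ∧ ¬ Simple A k Λ δ (x i) ∧ ¬ Simple A k Λ δ (x j) := by
  obtain ⟨c, B, hc, h⟩ := Pool.Agent.L0h78.ND.three x meas κ hκ A
  refine ⟨c, B, hc, fun k Λ δ hΛ hδ hB => ?_⟩
  subst hδ
  exact h k Λ hΛ hB

end Pool.Agent.Results.MP_e47f08_nt.DifferentBases
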