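import Mathlib
import Pool.Agent.R701.LV.Liou
import Pool.Agent.TH957.PB.Alt
import Pool.Agent.Y928.PN.Pairs

/-!
# The numbers `ζ(3)/π³`, `8 G - π⁵/(18 ζ(3)) ± (2/3) π²` and fields generated by Liouville numbers

Let `q_0, q_1, …` be integers `≥ 2`. A real number `y` is *approximable* on the scales `q_k` if for some `h` and every
`κ` there are, for all large `k`, integers `u` and `1 ≤ v ≤ q_k ^ h` with `|y - u / v| ≤ q_k ^ (-κ)`. The approximable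
numbers form a field, which contains `ℚ(ξ)` for a Liouville number `ξ` if the `q_k` are suitable.

The starting files say that at most one of the three numbers is rational. Here we have approximable numbers in place of
rational numbers, and each number may have scales of its own.
-/

set_option autoImplicit false

namespace Pool.Agent.Results.MP_e47f08_nt.LiouvilleFields

/-- `ζ(3)` -/
noncomputable def zeta3 : ℝ := ∑' j : ℕ, 1 / ((j : ℝ) + 1) ^ 3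

/-- Catalan's constant -/
noncomputable def G : ℝ := ∑' j : ℕ, (-1 : ℝ) ^ j / (2 * (j : ℝ) + 1) ^ 2

/-- the numbers `ζ(3)/π³`, `8 G - π⁵/(18 ζ(3)) + (2/3) π²`, `8 G - π⁵/(18 ζ(3)) - (2/3) π²` -/
noncomputable def x : Fin 3 → ℝ :=
  ![zeta3 / Real.pi ^ 3, 8 * G - Real.pi ^ 5 / (18 * zeta3) + 2 / 3 * Real.pi ^ 2,
    8 * G - Real.pi ^ 5 / (18 * zeta3) - 2 / 3 * Real.pi ^ 2]

/-- For some `h` and every `κ`, for all large `k`, there are integers `u` and `1 ≤ v ≤ (q k) ^ h` with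
`|y - u / v| ≤ (q k) ^ (-κ)`. -/
def Approximable (q : ℕ → ℕ) (y : ℝ) : Prop :=
  ∃ h : ℕ, ∀ κ : ℕ, ∃ k₀ : ℕ, ∀ k ≥ k₀, ∃ (u : ℤ) (v : ℕ), 1 ≤ v ∧ v ≤ q k ^ h ∧
    |y - (u : ℝ) / v| ≤ (((q k : ℕ) : ℝ) ^ κ)⁻¹

/-- For some `H` there are arbitrarily large `k`, `l` with `q_k ≤ r_l ^ H` and `r_l ≤ q_k ^ H`. -/
def Comparable (q r : ℕ → ℕ) : Prop :=
  ∃ H : ℕ, ∀ N : ℕ, ∃ k l : ℕ, N ≤ k ∧ N ≤ l ∧ q k ≤ r l ^ H ∧ r l ≤ q k ^ H

/-- At least two of the three numbers are not in `L`. -/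
def AvoidsTwo (L : IntermediateField ℚ ℝ) : Prop := ∃ i j : Fin 3, i ≠ j ∧ x i ∉ L ∧ x j ∉ L

/-- The sequence `2 ^ ((k + 2)!)`. -/
def q₀ (k : ℕ) : ℕ := 2 ^ (k + 2).factorial

open Pool.Agent.R701.LV

/-- two numbers with a measure for common denominators -/
theorem core {y z c : ℝ} (hc : 0 < c) (M : ℕ)
    (hm : ∀ (a b : ℤ) (n : ℕ), 0 < n → c / (n : ℝ) ^ M ≤ max |y - a / n| |z - b / n|)
    {q r : ℕ → ℕ} (hq : ∀ k, 2 ≤ q k) (hqr : Comparable q r) (hy : Approximable q y)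
    (hz : Approximable r z) : False := by
  obtain ⟨H, hH⟩ := hqr
  obtain ⟨h, hh⟩ := hy
  obtain ⟨g, hg⟩ := hz
  obtain ⟨m, hm'⟩ := exists_nat_gt (1 / c)
  obtain ⟨κ, hκ⟩ : ∃ κ : ℕ, κ = (h + H * g) * M + m := ⟨_, rfl⟩
  obtain ⟨k₀, hk₀⟩ := hh κ
  obtain ⟨l₀, hl₀⟩ := hg (H * κ)
  obtain ⟨k, l, hk, hl, h1, h2⟩ := hH (max k₀ l₀)
  obtain ⟨a, b, hb, hbq, hab⟩ := hk₀ k ((le_max_left _ _).trans hk)
  obtain ⟨a', b', hb', hbq', hab'⟩ := hl₀ l ((le_max_right _ _).trans hl)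
  have hbr : (b : ℝ) ≠ 0 := by positivity
  have hbr' : (b' : ℝ) ≠ 0 := by positivity
  have hq0 : (0 : ℝ) < ((q k : ℕ) : ℝ) := by
    have := hq k
    have h : 0 < q k := by omega
    exact_mod_cast h
  have h3 := hm (a * b') (a' * b) (b * b') (Nat.mul_pos hb hb')
  have e1 : ((a * b' : ℤ) : ℝ) / ((b * b' : ℕ) : ℝ) = a / b := by
    push_cast
    field_simp
  have e2 : ((a' * b : ℤ) : ℝ) / ((b * b' : ℕ) : ℝ) = a' / b' := by
    push_cast
    field_simp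
  rw [e1, e2] at h3
  have h4 : ((((r l : ℕ) : ℝ)) ^ (H * κ))⁻¹ ≤ (((q k : ℕ) : ℝ) ^ κ)⁻¹ := by
    apply inv_anti₀ (by positivity)
    rw [pow_mul]
    exact pow_le_pow_left₀ hq0.le (by exact_mod_cast h1) κ
  have h5 : c / ((b * b' : ℕ) : ℝ) ^ M ≤ (((q k : ℕ) : ℝ) ^ κ)⁻¹ :=
    h3.trans (max_le hab (hab'.trans h4))
  have hn0 : (0 : ℝ) < ((b * b' : ℕ) : ℝ) := by exact_mod_cast Nat.mul_pos hb hb'
  rw [div_le_iff₀ (by positivity)] at h5
  have h6 : ((b * b' : ℕ) : ℝ) ^ M ≤ ((q k : ℕ) : ℝ) ^ ((h + H * g) * M) := by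
    rw [pow_mul]
    refine pow_le_pow_left₀ hn0.le ?_ M
    have h7 : b * b' ≤ q k ^ (h + H * g) := by
      rw [pow_add, pow_mul]
      exact Nat.mul_le_mul hbq (hbq'.trans (Nat.pow_le_pow_left h2 g))
    exact_mod_cast h7
  have h8 : 1 / c < ((q k : ℕ) : ℝ) ^ m := by
    refine lt_of_lt_of_le hm' ?_
    exact_mod_cast le_pow (hq k) m
  rw [div_lt_iff₀ hc] at h8
  have h9 : c ≤ (((q k : ℕ) : ℝ) ^ m)⁻¹ := by
    refine h5.trans ?_
    rw [hκ, pow_add, mul_inv]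
    calc (((q k : ℕ) : ℝ) ^ ((h + H * g) * M))⁻¹ * (((q k : ℕ) : ℝ) ^ m)⁻¹ *
          ((b * b' : ℕ) : ℝ) ^ M ≤
        (((q k : ℕ) : ℝ) ^ ((h + H * g) * M))⁻¹ * (((q k : ℕ) : ℝ) ^ m)⁻¹ *
          ((q k : ℕ) : ℝ) ^ ((h + H * g) * M) :=
          mul_le_mul_of_nonneg_left h6 (by positivity)
      _ = (((q k : ℕ) : ℝ) ^ m)⁻¹ := by field_simp
  have h10 : c * ((q k : ℕ) : ℝ) ^ m ≤ 1 := by
    calc c * ((q k : ℕ) : ℝ) ^ m ≤ (((q k : ℕ) : ℝ) ^ m)⁻¹ * ((q k : ℕ) : ℝ) ^ m :=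
          mul_le_mul_of_nonneg_right h9 (by positivity)
      _ = 1 := by field_simp
  linarith

/-- the measure for two of the three numbers -/
theorem meas (i j : Fin 3) (hij : i ≠ j) : ∃ (c : ℝ) (M : ℕ), 0 < c ∧
    ∀ (a b : ℤ) (n : ℕ), 0 < n → c / (n : ℝ) ^ M ≤ max |x i - a / n| |x j - b / n| := by
  have key : ∀ ε : ℝ, (ε = 1 ∨ ε = -1) → ∃ (c : ℝ) (M : ℕ), 0 < c ∧
      ∀ (a b : ℤ) (n : ℕ), 0 < n → c / (n : ℝ) ^ M ≤ max |zeta3 / Real.pi ^ 3 - a / n|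
        |8 * G - Real.pi ^ 5 / (18 * zeta3) + ε * (2 / 3 * Real.pi ^ 2) - b / n| := by
    intro ε hε
    obtain ⟨c, hc, h⟩ := Pool.Agent.TH957.PB.alt ε hε
    refine ⟨c, 4000, hc, fun a b n hn => ?_⟩
    have h1 := h b a n n (by exact_mod_cast hn) (by exact_mod_cast hn)
    have hn0 : (0 : ℝ) < n := by exact_mod_cast hn
    have e : c * (((n : ℤ) : ℝ) * ((n : ℤ) : ℝ)) ^ (-(2000 : ℝ)) = c / (n : ℝ) ^ 4000 := by
      rw [Int.cast_natCast, Real.rpow_neg (by positivity), show (2000 : ℝ) = ((2000 : ℕ) : ℝ) by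
        norm_num, Real.rpow_natCast, ← pow_two, ← pow_mul, div_eq_mul_inv]
    rw [e] at h1
    simp only [Int.cast_natCast] at h1
    exact h1
  have e1 : x 1 = 8 * G - Real.pi ^ 5 / (18 * zeta3) + 1 * (2 / 3 * Real.pi ^ 2) := by
    show 8 * G - Real.pi ^ 5 / (18 * zeta3) + 2 / 3 * Real.pi ^ 2 = _
    ring
  have e2 : x 2 = 8 * G - Real.pi ^ 5 / (18 * zeta3) + -1 * (2 / 3 * Real.pi ^ 2) := by
    show 8 * G - Real.pi ^ 5 / (18 * zeta3) - 2 / 3 * Real.pi ^ 2 = _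
    ring
  have e0 : x 0 = zeta3 / Real.pi ^ 3 := rfl
  have k1 := key 1 (Or.inl rfl)
  have k2 := key (-1) (Or.inr rfl)
  rw [← e0, ← e1] at k1
  rw [← e0, ← e2] at k2
  have k3 : ∃ (c : ℝ) (M : ℕ), 0 < c ∧
      ∀ (a b : ℤ) (n : ℕ), 0 < n → c / (n : ℝ) ^ M ≤ max |x 1 - a / n| |x 2 - b / n| := by
    obtain ⟨κ, c, hκ, hc, h⟩ := Pool.Agent.Y928.PN.pi_pair
    obtain ⟨M, hM⟩ := exists_nat_ge κ
    refine ⟨c, M + 1, hc, fun a b n hn => ?_⟩
    have hn1 : (1 : ℝ) ≤ n := by exact_mod_cast hn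
    have hn0 : (0 : ℝ) < n := by linarith
    have h1 := h (x 1) (x 2) (by rw [e1, e2]; ring) n hn a b
    have h2 : (n : ℝ) ^ κ ≤ (n : ℝ) ^ M := by
      rw [← Real.rpow_natCast]
      exact Real.rpow_le_rpow_of_exponent_le hn1 hM
    have h3 : ∀ (y : ℝ) (a : ℤ), |(n : ℝ) * y - a| = n * |y - a / n| := by
      intro y a
      rw [← abs_of_pos hn0, ← abs_mul, abs_of_pos hn0]
      congr 1
      field_simp
    rw [h3, h3, ← mul_max_of_nonneg _ _ hn0.le] at h1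
    rw [div_le_iff₀ (by positivity)]
    have h4 : 0 ≤ max |x 1 - a / n| |x 2 - b / n| := (abs_nonneg _).trans (le_max_left _ _)
    calc c ≤ (n : ℝ) ^ κ * (n * max |x 1 - a / n| |x 2 - b / n|) := h1
      _ ≤ (n : ℝ) ^ M * (n * max |x 1 - a / n| |x 2 - b / n|) :=
          mul_le_mul_of_nonneg_right h2 (by positivity)
      _ = _ := by rw [pow_succ]; ring
  have swap : ∀ i j : Fin 3, (∃ (c : ℝ) (M : ℕ), 0 < c ∧
      ∀ (a b : ℤ) (n : ℕ), 0 < n → c / (n : ℝ) ^ M ≤ max |x i - a / n| |x j - b / n|) →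
      ∃ (c : ℝ) (M : ℕ), 0 < c ∧
      ∀ (a b : ℤ) (n : ℕ), 0 < n → c / (n : ℝ) ^ M ≤ max |x j - a / n| |x i - b / n| := by
    rintro i j ⟨c, M, hc, h⟩
    exact ⟨c, M, hc, fun a b n hn => by rw [max_comm]; exact h b a n hn⟩
  fin_cases i <;> fin_cases j
  · exact absurd rfl hij
  · exact k1
  · exact k2
  · exact swap _ _ k1
  · exact absurd rfl hij
  · exact k3
  · exact swap _ _ k2
  · exact swap _ _ k3
  · exact absurd rfl hij

/-- Let `x 0 = ζ(3)/π³` and `x 1`, `x 2` = `8 G - π⁵/(18 ζ(3)) ± (2/3) π²`, where `G` is Catalan's constant.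
(1) If one of the three numbers is approximable on the scales `q_k`, and another one on the scales `r_k`, then the two
sequences are not comparable. (2) The numbers which are approximable on the scales `q_k` form a field which contains at
most one of the three numbers. (3) For every Liouville number `ξ` the field `ℚ(ξ)` contains at most one of them.
(4) For `q_k = 2 ^ ((k + 2)!)` the field in (2) has the transcendence degree of the continuum. -/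
theorem result :
    (∀ q r : ℕ → ℕ, (∀ k, 2 ≤ q k) → (∀ k, 2 ≤ r k) → Comparable q r → ∀ i j : Fin 3, i ≠ j →
      ¬ (Approximable q (x i) ∧ Approximable r (x j))) ∧
    (∀ q : ℕ → ℕ, (∀ k, 2 ≤ q k) →
      ∃ L : IntermediateField ℚ ℝ, (∀ y, y ∈ L ↔ Approximable q y) ∧ AvoidsTwo L) ∧
    (∀ ξ : ℝ, Liouville ξ → AvoidsTwo (IntermediateField.adjoin ℚ {ξ})) ∧
    (∃ L : IntermediateField ℚ ℝ, (∀ y, y ∈ L ↔ Approximable q₀ y) ∧
      Algebra.trdeg ℚ L = Cardinal.continuum ∧ AvoidsTwo L) := by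
  have h1 : ∀ q r : ℕ → ℕ, (∀ k, 2 ≤ q k) → (∀ k, 2 ≤ r k) → Comparable q r →
      ∀ i j : Fin 3, i ≠ j → ¬ (Approximable q (x i) ∧ Approximable r (x j)) := by
    rintro q r hq _ hqr i j hij ⟨ha, hb⟩
    obtain ⟨c, M, hc, hm⟩ := meas i j hij
    exact core hc M hm hq hqr ha hb
  have hrefl : ∀ q : ℕ → ℕ, Comparable q q := fun q =>
    ⟨1, fun N => ⟨N, N, le_rfl, le_rfl, by rw [pow_one], by rw [pow_one]⟩⟩
  have havoid : ∀ q : ℕ → ℕ, (∀ k, 2 ≤ q k) → ∀ L : IntermediateField ℚ ℝ,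
      (∀ y, y ∈ L → Approximable q y) → AvoidsTwo L := by
    intro q hq L hL
    have h2 : ∀ i j : Fin 3, i ≠ j → x i ∉ L ∨ x j ∉ L := by
      intro i j hij
      by_contra hcon
      push Not at hcon
      exact h1 q q hq hq (hrefl q) i j hij ⟨hL _ hcon.1, hL _ hcon.2⟩
    rcases h2 0 1 (by decide) with h | h
    · rcases h2 1 2 (by decide) with h' | h'
      · exact ⟨0, 1, by decide, h, h'⟩
      · exact ⟨0, 2, by decide, h, h'⟩
    · rcases h2 0 2 (by decide) with h' | h'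
      · exact ⟨0, 1, by decide, h', h⟩
      · exact ⟨1, 2, by decide, h, h'⟩
  refine ⟨h1, fun q hq => ⟨LL hq, fun y => Iff.rfl, havoid q hq _ fun y hy => hy⟩,
    fun ξ hξ => ?_, LL two_le_qL, fun y => Iff.rfl, trdeg_eq _ fun A => xiL_apr A,
    havoid qL two_le_qL _ fun y hy => hy⟩
  obtain ⟨q, hq, hξq⟩ := liouville_apr hξ
  refine havoid q hq _ fun y hy => ?_
  have h2 : IntermediateField.adjoin ℚ {ξ} ≤ LL hq := by
    rw [IntermediateField.adjoin_le_iff, Set.singleton_subset_iff]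
    exact hξq
  exact h2 hy

end Pool.Agent.Results.MP_e47f08_nt.LiouvilleFields
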