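import Mathlib
import Pool.Agent.L0h79.TZ.Cor
import Pool.Agent.TH957.PB.Alt
import Pool.Agent.Y928.PN.Pairs

set_option autoImplicit false

/-!
# The numbers `ζ(3)/π³`, `8 G - π⁵/(18 ζ(3)) ± (2/3) π²` in multiplicatively independent bases
-/

namespace Pool.Agent.Results.MP_e47f08_nt.TwoBases

open Pool.Agent.L0h79.FR Pool.Agent.L0h79.TZ

/-- `ζ(3)` -/
noncomputable def zeta3 : ℝ := ∑' j : ℕ, 1 / ((j : ℝ) + 1) ^ 3

/-- Catalan's constant -/
noncomputable def G : ℝ := ∑' j : ℕ, (-1 : ℝ) ^ j / (2 * (j : ℝ) + 1) ^ 2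

/-- the numbers `ζ(3)/π³`, `8 G - π⁵/(18 ζ(3)) + (2/3) π²`, `8 G - π⁵/(18 ζ(3)) - (2/3) π²` -/
noncomputable def x : Fin 3 → ℝ :=
  ![zeta3 / Real.pi ^ 3, 8 * G - Real.pi ^ 5 / (18 * zeta3) + 2 / 3 * Real.pi ^ 2,
    8 * G - Real.pi ^ 5 / (18 * zeta3) - 2 / 3 * Real.pi ^ 2]

/-- the number of different blocks of length `n` in the sequence `w` -/
noncomputable def complexity {α : Type} (w : ℕ → α) (n : ℕ) : ℕ :=
  (Set.range fun i => fun j : Fin n => w (i + j)).ncard

/-- the digit of index `n + 1` after the point in the base `b` expansion of `y` -/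
noncomputable def digit (b : ℕ) (y : ℝ) (n : ℕ) : ℤ := ⌊y * (b : ℝ) ^ (n + 1)⌋ % (b : ℤ)

/-- `[s, t)` is a phrase of `w`: it has at most one letter, or it is a copy of an earlier block, which
starts `δ` letters before `s` (and may overlap `[s, t)`) -/
def Phrase {α : Type} (w : ℕ → α) (s t : ℕ) : Prop :=
  s ≤ t ∧ (t ≤ s + 1 ∨ ∃ δ, 1 ≤ δ ∧ δ ≤ s ∧ ∀ j, s ≤ j → j < t → w j = w (j - δ))

/-- the first `N` letters of `w` are covered by `r` consecutive phrases -/
def Parse {α : Type} (w : ℕ → α) (N r : ℕ) : Prop :=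
  ∃ t : ℕ → ℕ, t 0 = 0 ∧ N ≤ t r ∧ ∀ i < r, Phrase w (t i) (t (i + 1))

/-- the Lempel-Ziv complexity of the first `N` letters: the smallest number of phrases -/
noncomputable def LZ {α : Type} (w : ℕ → α) (N : ℕ) : ℕ := sInf {r | Parse w N r}

/-- `w` has finite rank at all scales: for every scale `N` there are `k` words of length at most
`C N` such that for every `E` and all large `N` a prefix of `w` of length at least `E N` is a product
of at most `M = M(E)` of these words -/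
def FiniteRank {α : Type} (w : ℕ → α) : Prop :=
  ∃ (k C : ℕ) (W : ℕ → Fin k → List α), (∀ N j, (W N j).length ≤ C * N) ∧
    ∀ E : ℕ, ∃ M N₀ : ℕ, ∀ N ≥ N₀, ∃ l : List (Fin k), l.length ≤ M ∧
      E * N ≤ (l.flatMap (W N)).length ∧
      ∀ i, ∀ hi : i < (l.flatMap (W N)).length, (l.flatMap (W N))[i] = w i

/-- the numbers `∑ τ(w_n) / b^(n+1)`, where `τ` has rational values and `w` is a word over a finite
alphabet which has finite rank or satisfies `LZ w N = O(1 + log N)` for `N ∈ S`, and the numbers whose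
digits in base `b` have at most linear block complexity -/
def Gen (S : Set ℕ) (b : ℕ) : Set ℝ :=
  {y | (∃ (α : Type) (_ : Finite α) (τ : α → ℚ) (w : ℕ → α),
      HasSum (fun n : ℕ => (τ (w n) : ℝ) / (b : ℝ) ^ (n + 1)) y ∧
      (FiniteRank w ∨ ∃ K : ℝ, ∀ N ∈ S, (LZ w N : ℝ) ≤ K * (1 + Real.log N))) ∨
    ∃ C : ℝ, ∀ n : ℕ, 1 ≤ n → (complexity (digit b y) n : ℝ) ≤ C * n}

/-- multiplicatively independent integers -/
def Indep (a b : ℕ) : Prop := ∀ k l : ℕ, a ^ k = b ^ l → k = 0 ∧ l = 0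

/-- the `ℚ`-algebra generated by `Gen S b` -/
noncomputable def Alg (S : Set ℕ) (b : ℕ) : Subalgebra ℚ ℝ := Algebra.adjoin ℚ (Gen S b)

theorem gen_sub {S : Set ℕ} {b : ℕ} (hb : 2 ≤ b) :
    Gen S b ⊆ {y | LZNum S b y ∨ UL b y} := by
  rintro y (⟨α, hα, τ, w, h, hw | ⟨K, hw⟩⟩ | h)
  · exact Or.inr (cls_ul frd_thm lu_thm hb (Or.inl ⟨α, hα, τ, w, h, Or.inl hw⟩))
  · exact Or.inl ⟨α, hα, τ, w, K, h, hw⟩
  · exact Or.inr (cls_ul frd_thm lu_thm hb (Or.inr h))

/-- the measure for two of the three numbers -/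
theorem meas (i j : Fin 3) (hij : i ≠ j) : Meas (x i) (x j) := by
  have key : ∀ ε : ℝ, (ε = 1 ∨ ε = -1) → ∃ (c : ℝ) (M : ℕ), 0 < c ∧
      ∀ (a b : ℤ) (n : ℕ), 0 < n → c / (n : ℝ) ^ M ≤ max |zeta3 / Real.pi ^ 3 - a / n|
        |8 * G - Real.pi ^ 5 / (18 * zeta3) + ε * (2 / 3 * Real.pi ^ 2) - b / n| := by
    intro ε hε
    obtain ⟨c, hc, h⟩ := Pool.Agent.TH957.PB.alt ε hε
    refine ⟨c, 4000, hc, fun a b n hn => ?_⟩
    have h1 := h b a n n (by exact_mod_cast hn) (by exact_mod_cast hn)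
    have hn0 : (0 : ℝ) < n := by exact_mod_cast hn
    have e : c * (((n : ℤ) : ℝ) * ((n : ℤ) : ℝ)) ^ (-(2000 : ℝ)) = c / (n : ℝ) ^ 4000 := by
      rw [Int.cast_natCast, Real.rpow_neg (by positivity), show (2000 : ℝ) = ((2000 : ℕ) : ℝ) by
        norm_num, Real.rpow_natCast, ← pow_two, ← pow_mul, div_eq_mul_inv]
    rw [e] at h1
    simp only [Int.cast_natCast] at h1
    exact h1
  have e1 : x 1 = 8 * G - Real.pi ^ 5 / (18 * zeta3) + 1 * (2 / 3 * Real.pi ^ 2) := by
    show 8 * G - Real.pi ^ 5 / (18 * zeta3) + 2 / 3 * Real.pi ^ 2 = _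
    ring
  have e2 : x 2 = 8 * G - Real.pi ^ 5 / (18 * zeta3) + -1 * (2 / 3 * Real.pi ^ 2) := by
    show 8 * G - Real.pi ^ 5 / (18 * zeta3) - 2 / 3 * Real.pi ^ 2 = _
    ring
  have e0 : x 0 = zeta3 / Real.pi ^ 3 := rfl
  have k1 : Meas (x 0) (x 1) := by
    have := key 1 (Or.inl rfl)
    rwa [← e0, ← e1] at this
  have k2 : Meas (x 0) (x 2) := by
    have := key (-1) (Or.inr rfl)
    rwa [← e0, ← e2] at this
  have k3 : Meas (x 1) (x 2) := by
    obtain ⟨κ, c, hκ, hc, h⟩ := Pool.Agent.Y928.PN.pi_pair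
    obtain ⟨M, hM⟩ := exists_nat_ge κ
    refine ⟨c, M + 1, hc, fun a b n hn => ?_⟩
    have hn1 : (1 : ℝ) ≤ n := by exact_mod_cast hn
    have hn0 : (0 : ℝ) < n := by linarith
    have h1 := h (x 1) (x 2) (by rw [e1, e2]; ring) n hn a b
    have h2 : (n : ℝ) ^ κ ≤ (n : ℝ) ^ M := by
      rw [← Real.rpow_natCast]
      exact Real.rpow_le_rpow_of_exponent_le hn1 hM
    have h3 : ∀ (y : ℝ) (a : ℤ), |(n : ℝ) * y - a| = n * |y - a / n| := by
      intro y a
      rw [← abs_of_pos hn0, ← abs_mul, abs_of_pos hn0]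
      congr 1
      field_simp
    rw [h3, h3, ← mul_max_of_nonneg _ _ hn0.le] at h1
    rw [div_le_iff₀ (by positivity)]
    have h4 : 0 ≤ max |x 1 - a / n| |x 2 - b / n| := (abs_nonneg _).trans (le_max_left _ _)
    calc c ≤ (n : ℝ) ^ κ * (n * max |x 1 - a / n| |x 2 - b / n|) := h1
      _ ≤ (n : ℝ) ^ M * (n * max |x 1 - a / n| |x 2 - b / n|) :=
          mul_le_mul_of_nonneg_right h2 (by positivity)
      _ = _ := by rw [pow_succ]; ring
  have swap : ∀ i j : Fin 3, Meas (x i) (x j) → Meas (x j) (x i) := by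
    rintro i j ⟨c, M, hc, h⟩
    exact ⟨c, M, hc, fun a b n hn => by rw [max_comm]; exact h b a n hn⟩
  fin_cases i <;> fin_cases j
  · exact absurd rfl hij
  · exact k1
  · exact k2
  · exact swap _ _ k1
  · exact absurd rfl hij
  · exact k3
  · exact swap _ _ k2
  · exact swap _ _ k3
  · exact absurd rfl hij

/-- Let `x 0 = ζ(3)/π³` and `x 1`, `x 2` = `8 G - π⁵/(18 ζ(3)) ± (2/3) π²`, where `G` is Catalan's constant, and
let `a, b` and `a', b'` be multiplicatively independent.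

(1) Let `i ≠ j`. For every `K` and all large `N`, the sum of the Lempel-Ziv complexities of the first `N` digits of `x i`
in base `a` and in base `b` is larger than `K log N`, or the sum of those of `x j` in base `a'` and in base `b'` is.

(2) Let `i ≠ j`, and let `S` be an infinite set of integers. Then `x i` is not in one of the algebras `Alg S a`, `Alg S b`,
or `x j` is not in one of the algebras `Alg S a'`, `Alg S b'`.

(3) Either `ζ(3)/π³` is irrational, or, for `i = 1` and for `i = 2`, the quotient of the sum of the Lempel-Ziv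
complexities of the first `N` digits of `x i` in base `a` and in base `b` by `log N` tends to infinity, and if the digits of
`x i` in base `a` have finite rank or at most linear block complexity then already the quotient of the complexity in base
`b` by `log N` tends to infinity. -/
theorem result :
    (∀ a b a' b' : ℕ, 2 ≤ a → 2 ≤ b → 2 ≤ a' → 2 ≤ b' → Indep a b → Indep a' b' →
      ∀ i j : Fin 3, i ≠ j →
      (∀ K : ℝ, ∃ N₀ : ℕ, ∀ N ≥ N₀,
        K * Real.log N < (LZ (digit a (x i)) N : ℝ) + LZ (digit b (x i)) N ∨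
        K * Real.log N < (LZ (digit a' (x j)) N : ℝ) + LZ (digit b' (x j)) N) ∧
      ∀ S : Set ℕ, S.Infinite →
        ¬ (x i ∈ Alg S a ∧ x i ∈ Alg S b ∧ x j ∈ Alg S a' ∧ x j ∈ Alg S b')) ∧
    (Irrational (x 0) ∨ ∀ a b : ℕ, 2 ≤ a → 2 ≤ b → Indep a b → ∀ i : Fin 3, i ≠ 0 →
      (∀ K : ℝ, ∃ N₀ : ℕ, ∀ N ≥ N₀,
        K * Real.log N < (LZ (digit a (x i)) N : ℝ) + LZ (digit b (x i)) N) ∧
      ((FiniteRank (digit a (x i)) ∨
          ∃ C : ℝ, ∀ n : ℕ, 1 ≤ n → (complexity (digit a (x i)) n : ℝ) ≤ C * n) →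
        ∀ K : ℝ, ∃ N₀ : ℕ, ∀ N ≥ N₀, K * Real.log N < (LZ (digit b (x i)) N : ℝ))) := by
  refine ⟨fun a b a' b' ha hb ha' hb' hab hab' i j hij => ⟨fun K => ?_, ?_⟩, ?_⟩
  · exact lz_pair (meas i j hij) ha hb ha' hb' hab hab' K
  · rintro S hS ⟨h1, h2, h3, h4⟩
    exact both (meas i j hij) hS ha hb ha' hb' hab hab'
      (Algebra.adjoin_mono (gen_sub ha) h1) (Algebra.adjoin_mono (gen_sub hb) h2)
      (Algebra.adjoin_mono (gen_sub ha') h3) (Algebra.adjoin_mono (gen_sub hb') h4)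
  · by_cases h0 : Irrational (x 0)
    · exact Or.inl h0
    · refine Or.inr fun a b ha hb hab i hi => ⟨fun K => ?_, fun h K => ?_⟩
      · exact lz_rat (meas 0 i (Ne.symm hi)) h0 ha hb hab K
      · refine lz_rat_simple (meas 0 i (Ne.symm hi)) h0 ha hb hab ?_ K
        rcases h with h | h
        · exact cls_digits ha (Or.inl h)
        · exact Algebra.subset_adjoin (Or.inr h)

end Pool.Agent.Results.MP_e47f08_nt.TwoBases
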